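import Mathlib

/-! The linearizing coordinate of a polynomial at infinity and orbits on rational rays. -/

set_option autoImplicit false

namespace Pool.Agent.MP_be2dd8_ag.H15

open Filter Topology Metric Bornology Polynomial

lemma series {Ψ : ℂ → ℂ} (h : AnalyticAt ℂ Ψ 0) : ∃ c : ℕ → ℂ, ∀ᶠ r in 𝓝[>] (0 : ℝ),
    (Summable fun j => ‖c j‖ * r ^ j) ∧ ∀ z, ‖z‖ ≤ r → HasSum (fun j => c j * z ^ j) (Ψ z) := by
  obtain ⟨p, hp⟩ := h
  obtain ⟨ε, hε, h⟩ := Metric.eventually_nhds_iff.1 (hasFPowerSeriesAt_iff.1 hp)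
  have key : ∀ z : ℂ, ‖z‖ < ε → HasSum (fun j => p.coeff j * z ^ j) (Ψ z) := fun z hz => by
    simpa [mul_comm] using h (y := z) (by simpa using hz)
  refine ⟨p.coeff, ?_⟩
  filter_upwards [Ioo_mem_nhdsGT hε] with r hr
  refine ⟨?_, fun z hz => key z (hz.trans_lt hr.2)⟩
  have := summable_norm_iff.2 (key r (by simpa [abs_of_pos hr.1] using hr.2)).summable
  simpa [abs_of_pos hr.1] using this

/-- the local form at a superattracting fixed point -/
lemma local_coord {d : ℕ} (hd : 2 ≤ d) {q : ℂ → ℂ} (hq : Differentiable ℂ q) (hq0 : q 0 = 1) :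
    ∃ s : ℂ → ℂ, AnalyticAt ℂ s 0 ∧ ∀ᶠ v in 𝓝 (0 : ℂ), q v ≠ 0 ∧
      v ^ d / q v * Complex.exp (-s (v ^ d / q v)) = (v * Complex.exp (-s v)) ^ d := by
  obtain ⟨ρ0, hρ0, hb⟩ : ∃ ρ0 > 0, ∀ v : ℂ, ‖v‖ < ρ0 → ‖q v - 1‖ < 1 / 2 := by
    obtain ⟨ρ0, h0, h⟩ := Metric.continuousAt_iff.1 (hq.continuous.continuousAt (x := 0))
      (1 / 2) (by norm_num)
    exact ⟨ρ0, h0, fun v hv => by simpa [hq0, dist_eq_norm] using h (x := v) (by simpa using hv)⟩
  set ρ := min ρ0 (1 / 4) with hρ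
  have hρp : 0 < ρ := lt_min hρ0 (by norm_num)
  have h1 : ∀ v ∈ ball (0 : ℂ) ρ, ‖q v - 1‖ < 1 / 2 := fun v hv =>
    hb v ((mem_ball_zero_iff.1 hv).trans_le (min_le_left _ _))
  have h2 : ∀ v ∈ ball (0 : ℂ) ρ, 1 / 2 ≤ ‖q v‖ := fun v hv => by
    have := norm_sub_norm_le 1 (q v)
    rw [norm_sub_rev, norm_one] at this
    linarith [h1 v hv]
  have h3 : ∀ v ∈ ball (0 : ℂ) ρ, q v ≠ 0 := fun v hv =>
    norm_pos_iff.1 (by linarith [h2 v hv])
  set R : ℂ → ℂ := fun v => v ^ d / q v with hR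
  have hm : Set.MapsTo R (ball 0 ρ) (ball 0 ρ) := by
    intro v hv
    have h4 := mem_ball_zero_iff.1 hv
    have h5 : ‖v‖ ≤ 1 / 4 := h4.le.trans (min_le_right _ _)
    have h6 : ‖v‖ ^ d ≤ ‖v‖ ^ 2 := pow_le_pow_of_le_one (norm_nonneg _) (by linarith) hd
    rw [mem_ball_zero_iff, hR]
    simp only
    rw [norm_div, norm_pow, div_lt_iff₀ (by linarith [h2 v hv])]
    nlinarith [h2 v hv, norm_nonneg v]
  have hRd : DifferentiableOn ℂ R (ball 0 ρ) :=
    (differentiableOn_id.pow d).div hq.differentiableOn h3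
  have hit : ∀ n, DifferentiableOn ℂ R^[n] (ball 0 ρ) := fun n => hRd.iterate hm n
  have hd1 : (2 : ℝ) ≤ d := by exact_mod_cast hd
  set F : ℕ → ℂ → ℂ := fun n v => Complex.log (q (R^[n] v)) / (d : ℂ) ^ (n + 1) with hF
  have hFb : ∀ n, ∀ v ∈ ball (0 : ℂ) ρ, ‖F n v‖ ≤ (1 / 2) ^ n := by
    intro n v hv
    have h4 := h1 _ (hm.iterate n hv)
    have h5 := Complex.norm_log_one_add_half_le_self h4.le
    rw [add_sub_cancel] at h5
    simp only [hF]
    rw [norm_div, norm_pow, Complex.norm_natCast, div_le_iff₀ (by positivity)]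
    have h6 : (2 : ℝ) ^ (n + 1) ≤ (d : ℝ) ^ (n + 1) := by gcongr
    have h7 : (1 / 2 : ℝ) ^ n * 2 ^ (n + 1) = 2 := by
      rw [pow_succ, ← mul_assoc, ← mul_pow]; norm_num
    have h8 := mul_le_mul_of_nonneg_left h6 (by positivity : (0 : ℝ) ≤ (1 / 2) ^ n)
    linarith
  have hsd : DifferentiableOn ℂ (fun v => ∑' n, F n v) (ball 0 ρ) := by
    refine Complex.differentiableOn_tsum_of_summable_norm summable_geometric_two (fun n => ?_)
      isOpen_ball hFb
    refine DifferentiableOn.div_const (DifferentiableOn.clog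
      (hq.comp_differentiableOn (hit n)) fun v hv => ?_) _
    have := Complex.mem_slitPlane_of_norm_lt_one (z := q (R^[n] v) - 1)
      (by linarith [h1 _ (hm.iterate n hv)])
    simpa using this
  refine ⟨fun v => ∑' n, F n v, hsd.analyticAt (ball_mem_nhds 0 hρp), ?_⟩
  filter_upwards [ball_mem_nhds (0 : ℂ) hρp] with v hv
  refine ⟨h3 v hv, ?_⟩
  have hd0 : (d : ℂ) ≠ 0 := by exact_mod_cast (by omega : d ≠ 0)
  have hs : Summable fun n => F n v := .of_norm_bounded summable_geometric_two (hFb · v hv)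
  have e : (d : ℂ) * ∑' n, F n v = Complex.log (q v) + ∑' n, F n (R v) := by
    rw [hs.tsum_eq_zero_add, mul_add, ← tsum_mul_left]
    congr 1
    · simp only [hF, Function.iterate_zero, id, zero_add, pow_one]
      field_simp
    · refine tsum_congr fun n => ?_
      simp only [hF, Function.iterate_succ_apply]
      field_simp
      ring
  rw [mul_pow, ← Complex.exp_nat_mul, mul_neg, e, neg_add, Complex.exp_add, Complex.exp_neg,
    Complex.exp_neg (Complex.log _), Complex.exp_log (h3 v hv)]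
  ring

theorem boettcher (f : ℂ[X]) (hf : 1 < f.natDegree) : ∃ Φ Ψ : ℂ → ℂ, AnalyticAt ℂ Ψ 0 ∧
    Ψ 0 ≠ 0 ∧ Tendsto Φ (cobounded ℂ) (𝓝 0) ∧ ∀ᶠ x in cobounded ℂ,
      x * Φ x = Ψ (Φ x) ∧ Φ (f.eval x) = Φ x ^ f.natDegree := by
  set d := f.natDegree with hd
  have ha : f.coeff d ≠ 0 := leadingCoeff_ne_zero.2 (by rintro rfl; simp [hd] at hf)
  obtain ⟨γ, hγ⟩ := IsAlgClosed.exists_pow_nat_eq (f.coeff d) (n := d - 1) (by omega)
  have hγ0 : γ ≠ 0 := by
    rintro rfl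
    rw [zero_pow (by omega)] at hγ
    exact ha hγ.symm
  set q : ℂ → ℂ := fun v => ∑ j ∈ Finset.range (d + 1), γ * f.coeff j / γ ^ j * v ^ (d - j)
    with hq
  have hq0 : q 0 = 1 := by
    simp only [hq]
    rw [Finset.sum_eq_single d (fun j hj hjd => by
      rw [zero_pow (by have := Finset.mem_range.1 hj; omega), mul_zero]) (by simp), ← hγ,
      ← pow_succ', Nat.sub_add_cancel (by omega)]
    simp [hγ0]
  have hqx : ∀ x : ℂ, x ≠ 0 → q (γ * x)⁻¹ = (γ * x)⁻¹ ^ d * (γ * f.eval x) := by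
    intro x hx
    rw [eval_eq_sum_range, Finset.mul_sum, Finset.mul_sum]
    refine Finset.sum_congr rfl fun j hj => ?_
    have hj : j ≤ d := by have := Finset.mem_range.1 hj; omega
    obtain ⟨e, he⟩ := Nat.exists_eq_add_of_le hj
    rw [he, Nat.add_sub_cancel_left, pow_add, inv_pow _ j, mul_pow]
    field_simp
  obtain ⟨s, hs, hv⟩ := local_coord hf (q := q) (by simp only [hq]; fun_prop) hq0
  set φ : ℂ → ℂ := fun v => v * Complex.exp (-s v) with hφ
  have hφa : AnalyticAt ℂ φ 0 := analyticAt_id.mul hs.neg.cexp'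
  have hφ0 : φ 0 = 0 := by simp [hφ]
  have hφd : deriv φ 0 ≠ 0 := by
    have := ((hasDerivAt_id (0 : ℂ)).mul hs.neg.cexp'.differentiableAt.hasDerivAt).deriv
    have e : deriv φ 0 = Complex.exp (-s 0) := this.trans (by simp)
    rw [e]; exact Complex.exp_ne_zero _
  set χ := hφa.hasStrictDerivAt.localInverse _ _ _ hφd with hχ
  have hχa : AnalyticAt ℂ χ 0 := hφ0 ▸ hφa.analyticAt_localInverse hφd
  have hχl : ∀ᶠ v in 𝓝 (0 : ℂ), χ (φ v) = v := HasStrictDerivAt.eventually_left_inverse _ _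
  have hχ0 : χ 0 = 0 := by simpa [hφ0] using hχl.self_of_nhds
  have ht : Tendsto (fun x : ℂ => (γ * x)⁻¹) (cobounded ℂ) (𝓝 0) :=
    tendsto_inv₀_cobounded.comp (tendsto_mul_left_cobounded hγ0)
  refine ⟨fun x => φ (γ * x)⁻¹, fun u => γ⁻¹ * Complex.exp (-s (χ u)), ?_, ?_, ?_, ?_⟩
  · exact analyticAt_const.mul ((hs.comp_of_eq hχa hχ0).neg.cexp')
  · exact mul_ne_zero (inv_ne_zero hγ0) (Complex.exp_ne_zero _)
  · exact hφ0 ▸ hφa.continuousAt.tendsto.comp ht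
  · filter_upwards [ht.eventually hv, ht.eventually hχl, eventually_ne_cobounded (0 : ℂ)]
      with x ⟨h1, h2⟩ h3 hx
    constructor
    · rw [h3]
      simp only [hφ]
      field_simp
    · have e : (γ * x)⁻¹ ^ d / q (γ * x)⁻¹ = (γ * f.eval x)⁻¹ := by
        have h4 : (γ * x)⁻¹ ^ d ≠ 0 := pow_ne_zero _ (inv_ne_zero (mul_ne_zero hγ0 hx))
        rw [hqx x hx, div_mul_eq_div_div, div_self h4, one_div]
      rw [e] at h2
      exact h2

/-- a recursively defined sequence with finitely many values is eventually periodic -/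
lemma periodic_of_finite {α : Type*} (x : ℕ → α) (F : α → α) (M : ℕ)
    (h : ∀ n, M ≤ n → x (n + 1) = F (x n)) {S : Set α} (hS : S.Finite)
    (hx : ∀ n, M ≤ n → x n ∈ S) : ∃ M' p, 0 < p ∧ ∀ n, M' ≤ n → x (n + p) = x n := by
  obtain ⟨a, ha, b, hb, hab, e⟩ := (Set.Ici_infinite M).exists_lt_map_eq_of_mapsTo
    (f := x) (fun n hn => hx n hn) hS
  refine ⟨a, b - a, by omega, fun n hn => ?_⟩
  induction n, hn using Nat.le_induction with
  | base => rw [Nat.add_sub_cancel' hab.le, e]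
  | succ n hn ih =>
    have ha : M ≤ a := ha
    rw [Nat.add_right_comm, h _ (by omega), h _ (by omega), ih]

/-- a convergent orbit of the power map on the unit circle is eventually constant -/
lemma const_of_tendsto {d : ℕ} (hd : 2 ≤ d) {z : ℕ → ℂ} {ξ : ℂ} (hξ : ‖ξ‖ = 1)
    (hz : Tendsto z atTop (𝓝 ξ)) (h : ∀ᶠ n in atTop, z (n + 1) = z n ^ d) :
    ∀ᶠ n in atTop, z n = ξ := by
  have hfix : ξ ^ d = ξ := tendsto_nhds_unique ((hz.pow d).congr' (h.mono fun n h => h.symm))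
    (hz.comp (tendsto_add_atTop_nat 1))
  have h1 : Tendsto (fun n => ‖∑ i ∈ Finset.range d, z n ^ i * ξ ^ (d - 1 - i)‖) atTop
      (𝓝 ‖∑ i ∈ Finset.range d, ξ ^ i * ξ ^ (d - 1 - i)‖) :=
    (tendsto_finsetSum _ fun i _ => (hz.pow i).mul_const _).norm
  have h2 : ‖∑ i ∈ Finset.range d, ξ ^ i * ξ ^ (d - 1 - i)‖ = d := by
    rw [geom_sum₂_self]; simp [hξ]
  have h3 : (1 : ℝ) < d := by exact_mod_cast hd
  rw [h2] at h1
  obtain ⟨M, hM⟩ := eventually_atTop.1 (h.and (h1.eventually (lt_mem_nhds h3)))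
  filter_upwards [eventually_ge_atTop M] with n hn
  have hmono : ∀ m, n ≤ m → ‖z n - ξ‖ ≤ ‖z m - ξ‖ := by
    intro m hm
    induction m, hm using Nat.le_induction with
    | base => exact le_rfl
    | succ m hm ih =>
      obtain ⟨h4, h5⟩ := hM m (hn.trans hm)
      have := geom_sum₂_mul (z m) ξ d
      rw [h4, ← hfix, ← this, norm_mul, hfix]
      nlinarith [norm_nonneg (z m - ξ)]
  have := ge_of_tendsto (tendsto_iff_norm_sub_tendsto_zero.1 hz)
    (eventually_atTop.2 ⟨n, hmono⟩)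
  exact sub_eq_zero.1 (norm_le_zero_iff.1 this)

/-- an orbit escaping along a rational ray, in the linearizing coordinate -/
theorem ray (f : ℂ[X]) (hf : 1 < f.natDegree) (x : ℕ → ℂ) (hx : ∀ n, x (n + 1) = f.eval (x n))
    (h1 : Tendsto (fun n => ‖x n‖) atTop atTop) {q : ℕ} (hq : 0 < q) {ζ : ℂ}
    (h2 : Tendsto (fun n => (x n / ‖x n‖) ^ q) atTop (𝓝 ζ)) :
    ∃ (Ψ : ℂ → ℂ) (z : ℕ → ℂ) (w : ℝ) (M p : ℕ), AnalyticAt ℂ Ψ 0 ∧ 0 < w ∧ 0 < p ∧
      ∀ n, M ≤ n → ‖z n‖ = 1 ∧ z (n + p) = z n ∧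
        x n * (z n * Real.exp (-(w * (f.natDegree : ℝ) ^ n))) =
          Ψ (z n * Real.exp (-(w * (f.natDegree : ℝ) ^ n))) := by
  obtain ⟨Φ, Ψ, hΨ, hΨ0, hΦ, hev⟩ := boettcher f hf
  set d := f.natDegree with hd
  have hc : Tendsto x atTop (cobounded ℂ) := tendsto_norm_atTop_iff_cobounded.1 h1
  set u : ℕ → ℂ := fun n => Φ (x n) with hu
  have hu0 : Tendsto u atTop (𝓝 0) := hΦ.comp hc
  have hΨu : Tendsto (fun n => Ψ (u n)) atTop (𝓝 (Ψ 0)) := hΨ.continuousAt.tendsto.comp hu0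
  obtain ⟨M, hM⟩ := eventually_atTop.1 ((hc.eventually hev).and ((hΨu.eventually_ne hΨ0).and
    (hu0.norm.eventually (gt_mem_nhds (by simp : ‖(0 : ℂ)‖ < 1)))))
  have a1 : ∀ n, M ≤ n → x n * u n = Ψ (u n) := fun n hn => (hM n hn).1.1
  have a2 : ∀ n, M ≤ n → u (n + 1) = u n ^ d := fun n hn => by
    simp only [hu]; rw [hx]; exact (hM n hn).1.2
  have a3 : ∀ n, M ≤ n → x n ≠ 0 ∧ u n ≠ 0 := fun n hn =>
    mul_ne_zero_iff.1 (by rw [a1 n hn]; exact (hM n hn).2.1)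
  set z : ℕ → ℂ := fun n => u n / ‖u n‖ with hz
  have hn0 : ∀ y : ℂ, y ≠ 0 → ((‖y‖ : ℝ) : ℂ) ≠ 0 := fun y hy => by
    exact_mod_cast norm_ne_zero_iff.2 hy
  have hn1 : ∀ y : ℂ, y ≠ 0 → ‖y / ‖y‖‖ = 1 := fun y hy => by
    rw [norm_div, Complex.norm_real, norm_norm, div_self (norm_ne_zero_iff.2 hy)]
  have b2 : ∀ n, M ≤ n → z (n + 1) = z n ^ d := fun n hn => by
    simp only [hz]; rw [a2 n hn, norm_pow, div_pow]; push_cast; rfl
  have hζ : ‖ζ‖ = 1 := by
    refine tendsto_nhds_unique h2.norm (tendsto_const_nhds.congr' ?_)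
    filter_upwards [eventually_ge_atTop M] with n hn
    rw [norm_pow, hn1 _ (a3 n hn).1, one_pow]
  have hζ0 : ζ ≠ 0 := norm_ne_zero_iff.1 (by rw [hζ]; exact one_ne_zero)
  have hlim : Tendsto (fun n => z n ^ q) atTop (𝓝 ((Ψ 0 / ‖Ψ 0‖) ^ q / ζ)) := by
    have := ((hΨu.div (Complex.continuous_ofReal.continuousAt.tendsto.comp hΨu.norm)
      (hn0 _ hΨ0)).pow q).div h2 hζ0
    refine this.congr' ?_
    filter_upwards [eventually_ge_atTop M] with n hn
    have h3 := hn0 _ (a3 n hn).1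
    have h4 := hn0 _ (a3 n hn).2
    have h5 := (a3 n hn).1
    simp only [Pi.div_apply, Function.comp, hz]
    rw [← div_pow, ← a1 n hn, norm_mul]
    congr 1
    push_cast
    field_simp
  have hcst := const_of_tendsto (d := d) hf (by rw [norm_div, norm_pow, hn1 _ hΨ0, hζ]; simp) hlim
    (by filter_upwards [eventually_ge_atTop M] with n hn
        rw [b2 n hn, ← pow_mul, ← pow_mul, mul_comm])
  obtain ⟨M1, hM1⟩ := eventually_atTop.1 hcst
  obtain ⟨M2, p, hp, hper⟩ := periodic_of_finite z (· ^ d) (max M M1)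
    (fun n hn => b2 n (le_of_max_le_left hn))
    (S := {y | y ^ q = (Ψ 0 / ‖Ψ 0‖) ^ q / ζ})
    (((nthRoots q ((Ψ 0 / ‖Ψ 0‖) ^ q / ζ)).toFinset.finite_toSet).subset fun y hy => by
      simpa [mem_nthRoots hq] using hy)
    (fun n hn => hM1 n (le_of_max_le_right hn))
  have hd0 : (0 : ℝ) < d := by exact_mod_cast (by omega : 0 < d)
  have hlog : Real.log ‖u M‖ < 0 := Real.log_neg (norm_pos_iff.2 (a3 M le_rfl).2) (hM M le_rfl).2.2
  set w := -Real.log ‖u M‖ / (d : ℝ) ^ M with hw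
  have hnorm : ∀ n, M ≤ n → ‖u n‖ = Real.exp (-(w * (d : ℝ) ^ n)) := by
    intro n hn
    induction n, hn using Nat.le_induction with
    | base =>
      rw [hw, div_mul_cancel₀ _ (by positivity), neg_neg,
        Real.exp_log (norm_pos_iff.2 (a3 M le_rfl).2)]
    | succ n hn ih =>
      rw [a2 n hn, norm_pow, ih, ← Real.exp_nat_mul, pow_succ]
      congr 1
      ring
  refine ⟨Ψ, z, w, max M M2, p, hΨ, div_pos (by linarith) (by positivity), hp, fun n hn => ?_⟩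
  have hn' := le_of_max_le_left hn
  have e : z n * Real.exp (-(w * (d : ℝ) ^ n)) = u n := by
    rw [← hnorm n hn']
    exact div_mul_cancel₀ _ (hn0 _ (a3 n hn').2)
  rw [e]
  exact ⟨hn1 _ (a3 n hn').2, hper n (le_of_max_le_right hn), a1 n hn'⟩

end Pool.Agent.MP_be2dd8_ag.H15
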