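import Pool.Agent.MP_be2dd8_ag.H15.Series
import Pool.Agent.MP_be2dd8_ag.H15.Boettcher

/-! Return sets of orbits on rational rays. -/

set_option autoImplicit false

namespace Pool.Agent.MP_be2dd8_ag.H15

open Filter Topology

lemma tendsto_of_not_const {X : Type*} (U : Ultrafilter X) (g : X → ℕ)
    (h : ¬ ∃ c, ∀ᶠ x in (U : Filter X), g x = c) : Tendsto g U atTop := by
  refine tendsto_atTop.2 fun b => ?_
  induction b with
  | zero => simp
  | succ b ih =>
    have : ∀ᶠ x in (U : Filter X), ¬ g x = b := Ultrafilter.eventually_not.2 fun h' => h ⟨b, h'⟩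
    filter_upwards [ih, this] with x h1 h2
    omega

lemma ev_const {X Y : Type*} (l : Filter X) (g : X → Y) :
    ∀ᶠ γ in l, (∃ c, ∀ᶠ x in l, g x = c) → ∀ᶠ x in l, g x = g γ := by
  by_cases h : ∃ c, ∀ᶠ x in l, g x = c
  · obtain ⟨c, hc⟩ := h
    filter_upwards [hc] with γ hγ _
    rwa [hγ]
  · exact Eventually.of_forall fun _ h' => absurd h' h

lemma scale {X ι : Type*} (U : Ultrafilter X) {d : ℕ} (hd : 2 ≤ d) (e : ι → X → ℕ) (w : ι → ℝ)
    {P : Set X} (hP : P ∈ U)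
    (hc : ∀ i j, (∃ Δ : ℤ, ∀ᶠ x in (U : Filter X), (e i x : ℤ) - e j x = Δ) →
      ∃ Δ : ℤ, ∀ x ∈ P, (e i x : ℤ) - e j x = Δ)
    (T : Finset ι) : (∀ i ∈ T, Tendsto (e i) U atTop) →
    (∀ x ∈ P, ∑ i ∈ T, w i * (d : ℝ) ^ e i x = 0) ∨
      Tendsto (fun x => ∑ i ∈ T, w i * (d : ℝ) ^ e i x) U atTop ∨
      Tendsto (fun x => ∑ i ∈ T, w i * (d : ℝ) ^ e i x) U atBot := by
  classical
  induction T using Finset.strongInduction with
  | H T ih =>
    intro hT
    rcases T.eq_empty_or_nonempty with rfl | hne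
    · simp
    have hd1 : (1 : ℝ) < d := by exact_mod_cast hd
    have hd0 : (0 : ℝ) < d := by linarith
    obtain ⟨t, ht, htop⟩ := exists_top (fun i j => ∀ᶠ x in (U : Filter X), e i x ≤ e j x)
      (fun i j => Ultrafilter.eventually_or.1 (Eventually.of_forall fun x => le_total _ _))
      (fun i j k h1 h2 => by filter_upwards [h1, h2] with x h1 h2 using h1.trans h2) T hne
    set c : ι → Prop := fun i => ∃ Δ : ℤ, ∀ᶠ x in (U : Filter X), (e i x : ℤ) - e t x = Δ with hcd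
    choose! Δ hΔ using fun i => hc i t
    set κ := ∑ i ∈ T.filter c, w i * (d : ℝ) ^ Δ i with hκ
    have hsplit : ∀ x ∈ P, ∑ i ∈ T, w i * (d : ℝ) ^ e i x =
        κ * (d : ℝ) ^ e t x + ∑ i ∈ T.filter (¬ c ·), w i * (d : ℝ) ^ e i x := by
      intro x hx
      rw [← Finset.sum_filter_add_sum_filter_not T c, hκ, Finset.sum_mul]
      congr 1
      refine Finset.sum_congr rfl fun i hi => ?_
      rw [← hΔ i (Finset.mem_filter.1 hi).2 x hx, zpow_sub₀ hd0.ne', zpow_natCast, zpow_natCast]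
      field_simp
    by_cases hκ0 : κ = 0
    · have hss : T.filter (¬ c ·) ⊂ T := Finset.filter_ssubset.2 ⟨t, ht, not_not.2 ⟨0, by simp⟩⟩
      have heq : (fun x => ∑ i ∈ T.filter (¬ c ·), w i * (d : ℝ) ^ e i x) =ᶠ[U]
          fun x => ∑ i ∈ T, w i * (d : ℝ) ^ e i x := by
        filter_upwards [hP] with x hx
        rw [hsplit x hx, hκ0, zero_mul, zero_add]
      rcases ih _ hss fun i hi => hT i (Finset.mem_filter.1 hi).1 with h | h | h
      · exact Or.inl fun x hx => by rw [hsplit x hx, hκ0, zero_mul, zero_add, h x hx]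
      · exact Or.inr (Or.inl (h.congr' heq))
      · exact Or.inr (Or.inr (h.congr' heq))
    · have h1 : Tendsto (fun x => (d : ℝ) ^ e t x) U atTop :=
        (tendsto_pow_atTop_atTop_of_one_lt hd1).comp (hT t ht)
      have h2 : Tendsto (fun x => κ + ∑ i ∈ T.filter (¬ c ·), w i * ((d : ℝ) ^ (e t x - e i x))⁻¹)
          U (𝓝 (κ + ∑ i ∈ T.filter (¬ c ·), w i * 0)) := by
        refine (tendsto_finsetSum _ fun i hi => Tendsto.const_mul _ ?_).const_add κ
        refine ((tendsto_pow_atTop_atTop_of_one_lt hd1).comp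
          (tendsto_of_not_const U _ ?_)).inv_tendsto_atTop
        rintro ⟨b, hb⟩
        refine (Finset.mem_filter.1 hi).2 ⟨-b, ?_⟩
        filter_upwards [hb, htop i (Finset.mem_filter.1 hi).1] with x h1 h2
        omega
      simp only [mul_zero, Finset.sum_const_zero, add_zero] at h2
      have heq : (fun x => (d : ℝ) ^ e t x *
          (κ + ∑ i ∈ T.filter (¬ c ·), w i * ((d : ℝ) ^ (e t x - e i x))⁻¹)) =ᶠ[U]
          fun x => ∑ i ∈ T, w i * (d : ℝ) ^ e i x := by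
        filter_upwards [hP, (eventually_all_finset T).2 htop] with x hx h
        rw [hsplit x hx, mul_add, mul_comm, Finset.mul_sum]
        congr 1
        refine Finset.sum_congr rfl fun i hi => ?_
        rw [pow_sub₀ _ hd0.ne' (h i (Finset.mem_filter.1 hi).1)]
        field_simp
      rcases lt_or_gt_of_ne hκ0 with h | h
      · exact Or.inr (Or.inr ((h1.atTop_mul_neg h h2).congr' heq))
      · exact Or.inr (Or.inl ((h1.atTop_mul_pos h h2).congr' heq))

lemma cover {X J : Type*} (S : Set X) (P : J → Set X)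
    (h : ∀ U : Ultrafilter X, S ∈ U → ∃ j, P j ⊆ S ∧ P j ∈ U) :
    ∃ (k : ℕ) (j : Fin k → J), S = {x | ∃ i, x ∈ P (j i)} := by
  obtain ⟨t, ht⟩ := (ultrafilter_isClosed_basic S).isCompact.elim_finite_subcover
    (fun j : {j // P j ⊆ S} => {U : Ultrafilter X | P j ∈ U})
    (fun j => ultrafilter_isOpen_basic _) fun U hU => by
      obtain ⟨j, h1, h2⟩ := h U hU
      exact Set.mem_iUnion.2 ⟨⟨j, h1⟩, h2⟩
  refine ⟨t.card, fun i => (t.equivFin.symm i : {j // P j ⊆ S}), Set.ext fun x => ⟨fun hx => ?_, ?_⟩⟩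
  · obtain ⟨j, hj, h1⟩ := Set.mem_iUnion₂.1 (ht (a := pure x) hx)
    exact ⟨t.equivFin ⟨j, hj⟩, by simpa using h1⟩
  · rintro ⟨i, hi⟩
    exact (t.equivFin.symm i).1.2 hi

lemma per_mul {α : Type*} {x : ℕ → α} {M p : ℕ} (h : ∀ n, M ≤ n → x (n + p) = x n) {n : ℕ}
    (hn : M ≤ n) (t : ℕ) : x (n + p * t) = x n := by
  induction t with
  | zero => rfl
  | succ t ih => rw [mul_add, mul_one, ← add_assoc, h _ (by omega), ih]

theorem core {N d : ℕ} (hd : 2 ≤ d) (x : Fin N → ℕ → ℂ) (A : Fin N → Prop) (Ψ : Fin N → ℂ → ℂ)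
    (z : Fin N → ℕ → ℂ) (w : Fin N → ℝ) (M p k : Fin N → ℕ) (hp : ∀ i, 0 < p i)
    (hΨ : ∀ i, AnalyticAt ℂ (Ψ i) 0)
    (hA : ∀ i, A i → 0 < w i ∧ 0 < k i ∧ ∀ n, M i ≤ n → ‖z i n‖ = 1 ∧ z i (n + p i) = z i n ∧
      x i n * (z i n * Real.exp (-(w i * (d : ℝ) ^ (k i * n)))) =
        Ψ i (z i n * Real.exp (-(w i * (d : ℝ) ^ (k i * n)))))
    (hB : ∀ i, ¬ A i → ∀ n, M i ≤ n → x i (n + p i) = x i n)
    (T : Set (MvPolynomial (Fin N) ℂ)) :
    ∃ (m : ℕ) (γ : Fin m → Fin N → ℕ) (H : Fin m → AddSubgroup (Fin N → ℤ)),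
      {n : Fin N → ℕ | ∀ q ∈ T, MvPolynomial.eval (fun i => x i (n i)) q = 0}
        = {n : Fin N → ℕ | ∃ j : Fin m, ∃ h ∈ H j,
            (∀ i, 0 ≤ h i) ∧ ∀ i, (n i : ℤ) = (γ j i : ℤ) + h i} := by
  classical
  choose c hc using fun i => series (hΨ i)
  obtain ⟨r, hr, hr0⟩ := ((eventually_all.2 hc).and self_mem_nhdsWithin).exists
  have hr0 : 0 < r := hr0
  have hd1 : (1 : ℝ) < d := by exact_mod_cast hd
  have hM' : ∀ i, ∃ M', ∀ n, M' ≤ n → M i ≤ n ∧
      (A i → Real.exp (-(w i * (d : ℝ) ^ (k i * n))) ≤ r) := by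
    intro i
    refine eventually_atTop.1 ((eventually_ge_atTop _).and ?_)
    by_cases h : A i
    · have : Tendsto (fun n => Real.exp (-(w i * (d : ℝ) ^ (k i * n)))) atTop (𝓝 0) :=
        Real.tendsto_exp_neg_atTop_nhds_zero.comp
          (((tendsto_pow_atTop_atTop_of_one_lt hd1).comp
            (tendsto_id.const_mul_atTop' (hA i h).2.1)).const_mul_atTop (hA i h).1)
      exact (this.eventually (ge_mem_nhds hr0)).mono fun n hn _ => hn
    · exact Eventually.of_forall fun n h' => absurd h' h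
  choose M' hM' using hM'
  suffices key : ∀ U : Ultrafilter (Fin N → ℕ),
      {n : Fin N → ℕ | ∀ q ∈ T, MvPolynomial.eval (fun i => x i (n i)) q = 0} ∈ U →
      ∃ j : (Fin N → ℕ) × AddSubgroup (Fin N → ℤ),
        {n : Fin N → ℕ | ∃ h ∈ j.2, (∀ i, 0 ≤ h i) ∧ ∀ i, (n i : ℤ) = (j.1 i : ℤ) + h i} ⊆
          {n : Fin N → ℕ | ∀ q ∈ T, MvPolynomial.eval (fun i => x i (n i)) q = 0} ∧
        {n : Fin N → ℕ | ∃ h ∈ j.2, (∀ i, 0 ≤ h i) ∧ ∀ i, (n i : ℤ) = (j.1 i : ℤ) + h i} ∈ U by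
    obtain ⟨m, j, hj⟩ := cover _ _ key
    exact ⟨m, fun i => (j i).1, fun i => (j i).2, hj⟩
  intro U hU
  set bd : Fin N → Prop := fun i => ∃ b, ∀ᶠ n in (U : Filter (Fin N → ℕ)), n i = b with hbd
  set rel : Fin N → Fin N → Prop := fun i j => ∃ Δ : ℤ, ∀ᶠ n in (U : Filter (Fin N → ℕ)),
    ((k i * n i : ℕ) : ℤ) - (k j * n j : ℕ) = Δ with hrel
  have hinf : ∀ i, ¬ bd i → Tendsto (fun n : Fin N → ℕ => n i) U atTop :=
    fun i h => tendsto_of_not_const U _ h
  have hmod : ∀ i, ∃ b, ∀ᶠ n in (U : Filter (Fin N → ℕ)), n i % p i = b := fun i => by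
    by_contra h
    obtain ⟨n, hn⟩ := ((tendsto_of_not_const U _ h).eventually (eventually_ge_atTop (p i))).exists
    exact absurd (Nat.mod_lt (n i) (hp i)) (not_lt.2 hn)
  have hlarge : ∀ B : Fin N → ℕ, ∀ᶠ n in (U : Filter (Fin N → ℕ)), ∀ i, ¬ bd i → B i ≤ n i :=
    fun B => eventually_all.2 fun i => by
      by_cases h : bd i
      · exact Eventually.of_forall fun _ h' => absurd h h'
      · exact ((hinf i h).eventually (eventually_ge_atTop (B i))).mono fun _ h _ => h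
  obtain ⟨γ, ⟨g1, g2⟩, g3, g4⟩ :=
    (((eventually_all.2 fun i => ev_const (U : Filter (Fin N → ℕ)) fun n => n i).and
      (eventually_all.2 fun i => ev_const (U : Filter (Fin N → ℕ)) fun n => n i % p i)).and
      ((eventually_all.2 fun i => eventually_all.2 fun j => ev_const (U : Filter (Fin N → ℕ))
        fun n => ((k i * n i : ℕ) : ℤ) - (k j * n j : ℕ)).and (hlarge M'))).exists
  let H : AddSubgroup (Fin N → ℤ) :=
    { carrier := {h | (∀ i, bd i → h i = 0) ∧ (∀ i, (p i : ℤ) ∣ h i) ∧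
        ∀ i j, rel i j → (k i : ℤ) * h i = k j * h j}
      zero_mem' := by simp
      add_mem' := fun {a b} ha hb => ⟨fun i hi => by simp [ha.1 i hi, hb.1 i hi],
        fun i => (ha.2.1 i).add (hb.2.1 i), fun i j h => by
          simp only [Pi.add_apply, mul_add, ha.2.2 i j h, hb.2.2 i j h]⟩
      neg_mem' := fun {a} ha => ⟨fun i hi => by simp [ha.1 i hi],
        fun i => (ha.2.1 i).neg_right, fun i j h => by
          simp only [Pi.neg_apply, mul_neg, ha.2.2 i j h]⟩ }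
  set P : Set (Fin N → ℕ) :=
    {n | ∃ h ∈ H, (∀ i, 0 ≤ h i) ∧ ∀ i, (n i : ℤ) = (γ i : ℤ) + h i} with hP
  have hPU : P ∈ U := by
    have e1 : ∀ᶠ n in (U : Filter (Fin N → ℕ)), ∀ i, bd i → n i = γ i :=
      eventually_all.2 fun i => eventually_imp_distrib_left.2 (g1 i)
    have e2 := eventually_all.2 fun i => g2 i (hmod i)
    have e3 : ∀ᶠ n in (U : Filter (Fin N → ℕ)), ∀ i j, rel i j →
        ((k i * n i : ℕ) : ℤ) - (k j * n j : ℕ) = ((k i * γ i : ℕ) : ℤ) - (k j * γ j : ℕ) :=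
      eventually_all.2 fun i => eventually_all.2 fun j => eventually_imp_distrib_left.2 (g3 i j)
    filter_upwards [e1, e2, e3, hlarge γ] with n e1 e2 e3 e4
    refine ⟨fun i => n i - γ i, ⟨fun i hi => by simp [e1 i hi], fun i => ?_, fun i j h => ?_⟩,
      fun i => ?_, fun i => by ring⟩
    · exact (Nat.modEq_iff_dvd.1 (e2 i).symm)
    · have := e3 i j h
      push_cast at this
      linear_combination this
    · by_cases h : bd i
      · simp [e1 i h]
      · simpa using e4 i h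
  have hPn : ∀ n ∈ P, ∀ i, (bd i → n i = γ i) ∧ ∃ t, n i = γ i + p i * t := by
    rintro n ⟨h, ⟨h1, h2, -⟩, h3, h4⟩ i
    refine ⟨fun hi => by have := h4 i; rw [h1 i hi] at this; omega, ?_⟩
    obtain ⟨t, ht⟩ := h2 i
    have h5 : 0 ≤ t := by
      have := h3 i
      rw [ht] at this
      exact nonneg_of_mul_nonneg_right this (by exact_mod_cast hp i)
    lift t to ℕ using h5
    refine ⟨t, ?_⟩
    have := h4 i
    rw [ht] at this
    exact_mod_cast this
  set act : Fin N → Prop := fun i => A i ∧ ¬ bd i with hact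
  set ζ : Fin N → ℂ := fun i => if act i then z i (γ i) else r with hζ
  set u : (Fin N → ℕ) → Fin N → ℂ := fun n i =>
    ζ i * Real.exp (-(if act i then w i * (d : ℝ) ^ (k i * n i) else 0)) with hu
  set g : Fin N → (Fin N → ℂ) → ℂ := fun i =>
    if act i then fun v => Ψ i (v i) else fun v => x i (γ i) * mon (Pi.single i 1) v with hg
  have hγM : ∀ i, ¬ bd i → M i ≤ γ i := fun i h => (hM' i _ (g4 i h)).1
  have hζ0 : ∀ i, ζ i ≠ 0 := fun i => by
    simp only [hζ]
    split_ifs with h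
    · exact norm_ne_zero_iff.1 (by rw [((hA i h.1).2.2 _ (hγM i h.2)).1]; exact one_ne_zero)
    · exact_mod_cast hr0.ne'
  have hu0 : ∀ n i, u n i ≠ 0 := fun n i =>
    mul_ne_zero (hζ0 i) (by exact_mod_cast (Real.exp_pos _).ne')
  have hur : ∀ n ∈ P, ∀ i, ‖u n i‖ ≤ r := by
    intro n hn i
    simp only [hu, hζ]
    split_ifs with h
    · obtain ⟨t, ht⟩ := (hPn n hn i).2
      rw [norm_mul, ((hA i h.1).2.2 _ (hγM i h.2)).1, one_mul, Complex.norm_real,
        Real.norm_eq_abs, abs_of_pos (Real.exp_pos _)]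
      exact (hM' i _ ((g4 i h.2).trans (by omega))).2 h.1
    · simp [abs_of_pos hr0]
  have hgA : ∀ i, An r (g i) := fun i => by
    simp only [hg]
    split_ifs
    · exact An.one_var i (c i) (Ψ i) (hr i).1 (hr i).2
    · exact An.monomial r _ _
  have hxu : ∀ n ∈ P, ∀ i, x i (n i) * u n i = g i (u n) := by
    intro n hn i
    obtain ⟨h1, t, ht⟩ := hPn n hn i
    by_cases h : act i
    · have h2 := hγM i h.2
      have h3 : z i (n i) = z i (γ i) := by
        rw [ht]; exact per_mul (fun n hn => ((hA i h.1).2.2 n hn).2.1) h2 t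
      simp only [hg, hu, hζ, if_pos h, ← h3]
      exact ((hA i h.1).2.2 _ (by omega)).2.2
    · have h3 : x i (n i) = x i (γ i) := by
        by_cases hb : bd i
        · rw [h1 hb]
        · rw [ht]; exact per_mul (hB i fun ha => h ⟨ha, hb⟩) (hγM i hb) t
      simp only [hg, if_neg h, mon_single, pow_one, h3]
  have hmon : ∀ a n, mon a (u n) = mon a ζ *
      Real.exp (-∑ i ∈ Finset.univ.filter act, a i * w i * (d : ℝ) ^ (k i * n i)) := by
    intro a n
    rw [Finset.sum_filter, ← Finset.sum_neg_distrib, Real.exp_sum]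
    simp only [mon, hu, mul_pow, Finset.prod_mul_distrib]
    push_cast
    congr 1
    refine Finset.prod_congr rfl fun i _ => ?_
    rw [← Complex.exp_nat_mul]
    split_ifs <;> push_cast <;> ring_nf
  have hrat : ∀ a b n, mon a (u n) / mon b (u n) = mon a ζ / mon b ζ * Real.exp
      (-∑ i ∈ Finset.univ.filter act, ((a i : ℝ) - b i) * w i * (d : ℝ) ^ (k i * n i)) := by
    intro a b n
    rw [hmon, hmon, mul_div_mul_comm, ← Complex.ofReal_div, ← Real.exp_sub]
    simp only [sub_mul, Finset.sum_sub_distrib, neg_sub, neg_sub_neg]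
  have hzero : ∀ a b : Fin N → ℕ, Tendsto (fun n : Fin N → ℕ =>
      ∑ i ∈ Finset.univ.filter act, ((a i : ℝ) - b i) * w i * (d : ℝ) ^ (k i * n i)) U atTop →
      Tendsto (fun n => mon a (u n) / mon b (u n)) U (𝓝 0) := by
    intro a b h
    simp only [hrat]
    have := (Complex.continuous_ofReal.continuousAt.tendsto.comp
      (Real.tendsto_exp_neg_atTop_nhds_zero.comp h)).const_mul (mon a ζ / mon b ζ)
    simpa using this
  refine ⟨(γ, H), fun n hn q hq => ?_, hPU⟩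
  obtain ⟨D, G, hG, hGq⟩ := An.poly hr0.le g hgA q
  have := hG.vanish hr0 U P hPU u (fun n _ => hu0 n) hur (fun a b => ?_) ?_ n hn
  · rw [hGq _ _ (hxu n hn)] at this
    exact (mul_eq_zero.1 this).resolve_right (mon_ne (hu0 n))
  · rcases scale U hd (fun i n => k i * n i) (fun i => ((a i : ℝ) - b i) * w i) hPU
      (fun i j hij => ⟨((k i * γ i : ℕ) : ℤ) - (k j * γ j : ℕ), by
        rintro n ⟨h, ⟨-, -, h1⟩, -, h2⟩
        push_cast
        rw [h2 i, h2 j]
        linear_combination h1 i j hij⟩) (Finset.univ.filter act) (fun i hi => by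
        have := (Finset.mem_filter.1 hi).2
        exact (hinf i this.2).const_mul_atTop' (hA i this.1).2.1) with h | h | h
    · refine Or.inl ⟨mon a ζ / mon b ζ, fun n hn => ?_⟩
      rw [← div_eq_iff (mon_ne (hu0 n)), hrat, h n hn]
      simp
    · exact Or.inr (Or.inl (hzero a b h))
    · refine Or.inr (Or.inr (hzero b a ((tendsto_neg_atBot_atTop.comp h).congr fun n => ?_)))
      simp only [Function.comp, ← Finset.sum_neg_distrib]
      exact Finset.sum_congr rfl fun i _ => by ring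
  · filter_upwards [hPU, hU] with n hn hS
    rw [hGq _ _ (hxu n hn), hS q hq, zero_mul]

lemma escape (f : Polynomial ℂ) (hf : 1 < f.natDegree) (x : ℕ → ℂ)
    (hx : ∀ n, x (n + 1) = f.eval (x n)) (h : ¬ Bornology.IsBounded (Set.range x)) :
    Tendsto (fun n => ‖x n‖) atTop atTop := by
  have h1 : 0 < f.divX.degree := Polynomial.natDegree_pos_iff_degree_pos.1 (by
    rw [Polynomial.natDegree_divX_eq_natDegree_tsub_one]; omega)
  have h2 := (f.divX.tendsto_norm_atTop h1 (l := Bornology.cobounded ℂ) (z := id)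
    tendsto_norm_cobounded_atTop).eventually (eventually_ge_atTop 2)
  rw [← comap_norm_atTop, eventually_comap] at h2
  obtain ⟨R, hR⟩ := eventually_atTop.1 (h2.and (eventually_ge_atTop (‖f.coeff 0‖ + 1)))
  have step : ∀ y : ℂ, R ≤ ‖y‖ → ‖y‖ + 1 ≤ ‖f.eval y‖ := by
    intro y hy
    obtain ⟨h3, h4⟩ := hR _ hy
    have h5 : f.eval y = y * f.divX.eval y + f.coeff 0 := by
      have := congrArg (Polynomial.eval y) f.X_mul_divX_add
      rw [Polynomial.eval_add, Polynomial.eval_mul, Polynomial.eval_X, Polynomial.eval_C] at this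
      exact this.symm
    have h6 := norm_sub_le (f.eval y) (f.coeff 0)
    rw [h5, add_sub_cancel_right, norm_mul, ← h5] at h6
    have h7 := h3 y rfl
    simp only [id] at h7
    nlinarith [norm_nonneg y]
  obtain ⟨M, hM⟩ : ∃ M, R ≤ ‖x M‖ := by
    by_contra h'
    exact h (isBounded_iff_forall_norm_le.2 ⟨R, by
      rintro _ ⟨n, rfl⟩; exact (not_le.1 fun hn => h' ⟨n, hn⟩).le⟩)
  have key : ∀ t : ℕ, R + t ≤ ‖x (t + M)‖ := by
    intro t
    induction t with
    | zero => simpa using hM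
    | succ t ih =>
      rw [Nat.add_right_comm, hx]
      have := step _ (le_trans (le_add_of_nonneg_right (Nat.cast_nonneg t)) ih)
      push_cast
      linarith
  exact (tendsto_add_atTop_iff_nat M).1 (tendsto_atTop_mono key
    (tendsto_atTop_add_const_left _ _ tendsto_natCast_atTop_atTop))

lemma int_orbit (f : Polynomial ℂ) (hf : 1 < f.natDegree) (x : ℕ → ℂ)
    (hx : ∀ n, x (n + 1) = f.eval (x n)) (hi : ¬ (Set.range x).Finite)
    (hz : ∀ n, ∃ m : ℤ, x n = m) : ¬ Bornology.IsBounded (Set.range x) ∧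
      Tendsto (fun n => (x n / ‖x n‖) ^ 2) atTop (𝓝 1) := by
  have hb : ¬ Bornology.IsBounded (Set.range x) := by
    intro hb
    obtain ⟨R, hR⟩ := isBounded_iff_forall_norm_le.1 hb
    refine hi (((Set.finite_Icc (-⌈R⌉) ⌈R⌉).image (Int.cast : ℤ → ℂ)).subset ?_)
    rintro _ ⟨n, rfl⟩
    obtain ⟨m, hm⟩ := hz n
    have := (hR _ ⟨n, rfl⟩).trans (Int.le_ceil R)
    rw [hm, Complex.norm_intCast] at this
    exact ⟨m, abs_le.1 (by exact_mod_cast this), hm.symm⟩
  refine ⟨hb, tendsto_const_nhds.congr' ?_⟩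
  filter_upwards [(escape f hf x hx hb).eventually (eventually_gt_atTop 0)] with n hn
  obtain ⟨m, hm⟩ := hz n
  have h1 : (m : ℂ) ≠ 0 := hm ▸ norm_pos_iff.1 hn
  rw [hm, Complex.norm_intCast, div_pow, ← Complex.ofReal_pow, sq_abs]
  push_cast
  rw [div_self (pow_ne_zero _ h1)]

theorem main {N : ℕ} (f : Fin N → Polynomial ℂ) (x : Fin N → ℕ → ℂ) (d : ℕ)
    (hx : ∀ i n, x i (n + 1) = (f i).eval (x i n)) (hf : ∀ i, 1 < (f i).natDegree)
    (h : ∀ i, (Set.range (x i)).Finite ∨ ((∃ k, (f i).natDegree = d ^ k) ∧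
      ((∀ n, ∃ m : ℤ, x i n = m) ∨ (¬ Bornology.IsBounded (Set.range (x i)) ∧
        ∃ (q : ℕ) (ζ : ℂ), 0 < q ∧ Tendsto (fun n => (x i n / ‖x i n‖) ^ q) atTop (𝓝 ζ)))))
    (T : Set (MvPolynomial (Fin N) ℂ)) :
    ∃ (m : ℕ) (γ : Fin m → Fin N → ℕ) (H : Fin m → AddSubgroup (Fin N → ℤ)),
      {n : Fin N → ℕ | ∀ q ∈ T, MvPolynomial.eval (fun i => x i (n i)) q = 0}
        = {n : Fin N → ℕ | ∃ j : Fin m, ∃ h ∈ H j,
            (∀ i, 0 ≤ h i) ∧ ∀ i, (n i : ℤ) = (γ j i : ℤ) + h i} := by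
  have key : ∀ i, ∃ (Ψ : ℂ → ℂ) (z : ℕ → ℂ) (w : ℝ) (M p k : ℕ), 0 < p ∧ AnalyticAt ℂ Ψ 0 ∧
      (¬ (Set.range (x i)).Finite → 0 < w ∧ 0 < k ∧ ∀ n, M ≤ n → ‖z n‖ = 1 ∧ z (n + p) = z n ∧
        x i n * (z n * Real.exp (-(w * ((max d 2 : ℕ) : ℝ) ^ (k * n)))) =
          Ψ (z n * Real.exp (-(w * ((max d 2 : ℕ) : ℝ) ^ (k * n))))) ∧
      (¬ ¬ (Set.range (x i)).Finite → ∀ n, M ≤ n → x i (n + p) = x i n) := by
    intro i
    by_cases hi : (Set.range (x i)).Finite
    · obtain ⟨M, p, hp, hper⟩ := periodic_of_finite (x i) (fun z => (f i).eval z) 0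
        (fun n _ => hx i n) hi fun n _ => ⟨n, rfl⟩
      exact ⟨fun _ => 0, fun _ => 0, 0, M, p, 0, hp, analyticAt_const, fun h => absurd hi h,
        fun _ => hper⟩
    · obtain ⟨⟨k, hk⟩, h2⟩ := (h i).resolve_left hi
      obtain ⟨hb, q, ζ, hq, hζ⟩ : ¬ Bornology.IsBounded (Set.range (x i)) ∧
          ∃ (q : ℕ) (ζ : ℂ), 0 < q ∧ Tendsto (fun n => (x i n / ‖x i n‖) ^ q) atTop (𝓝 ζ) := by
        rcases h2 with h2 | h2
        · have := int_orbit (f i) (hf i) (x i) (hx i) hi h2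
          exact ⟨this.1, 2, 1, two_pos, this.2⟩
        · exact h2
      obtain ⟨Ψ, z, w, M, p, h1, h3, h4, h5⟩ :=
        ray (f i) (hf i) (x i) (hx i) (escape (f i) (hf i) (x i) (hx i) hb) hq hζ
      have h6 := hf i
      rw [hk] at h6
      have hk0 : k ≠ 0 := by rintro rfl; simp at h6
      have hd : max d 2 = d := max_eq_left ((Nat.one_lt_pow_iff hk0).1 h6)
      refine ⟨Ψ, z, w, M, p, k, h4, h1, fun _ => ⟨h3, Nat.pos_of_ne_zero hk0, ?_⟩,
        fun h => absurd hi h⟩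
      rw [hk] at h5
      simpa only [hd, pow_mul, Nat.cast_pow] using h5
  choose Ψ z w M p k h1 h2 h3 h4 using key
  exact core (le_max_right d 2) x (fun i => ¬ (Set.range (x i)).Finite) Ψ z w M p k h1 h2 h3 h4 T

end Pool.Agent.MP_be2dd8_ag.H15
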