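import Mathlib

/-! Absolutely convergent power series in several variables and a leading term principle. -/

set_option autoImplicit false

namespace Pool.Agent.MP_be2dd8_ag.H15

open Filter Topology

variable {N : ℕ}

/-- the monomial with exponent `a` -/
noncomputable def mon (a : Fin N → ℕ) (u : Fin N → ℂ) : ℂ := ∏ i, u i ^ a i

lemma mon_add (a b : Fin N → ℕ) (u : Fin N → ℂ) : mon (a + b) u = mon a u * mon b u := by
  simp [mon, pow_add, Finset.prod_mul_distrib]

lemma mon_ne {a : Fin N → ℕ} {u : Fin N → ℂ} (h : ∀ i, u i ≠ 0) : mon a u ≠ 0 :=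
  Finset.prod_ne_zero_iff.2 fun i _ => pow_ne_zero _ (h i)

lemma norm_mon_le {r : ℝ} (a : Fin N → ℕ) {u : Fin N → ℂ} (h : ∀ i, ‖u i‖ ≤ r) :
    ‖mon a u‖ ≤ r ^ (∑ i, a i) := by
  rw [mon, norm_prod, ← Finset.prod_pow_eq_pow_sum]
  exact Finset.prod_le_prod (fun i _ => norm_nonneg _) fun i _ => by
    rw [norm_pow]; exact pow_le_pow_left₀ (norm_nonneg _) (h i) _

lemma mon_single (i : Fin N) (k : ℕ) (u : Fin N → ℂ) : mon (Pi.single i k) u = u i ^ k := by
  rw [mon, Finset.prod_eq_single i (fun j _ hj => by simp [Pi.single_eq_of_ne hj]) (by simp)]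
  simp

/-- sums of absolutely convergent series of monomials on the closed polydisc of radius `r` -/
def An (r : ℝ) (G : (Fin N → ℂ) → ℂ) : Prop :=
  ∃ (I : Type) (c : I → ℂ) (a : I → Fin N → ℕ),
    Summable (fun s => ‖c s‖ * r ^ (∑ i, a s i)) ∧
    ∀ u : Fin N → ℂ, (∀ i, ‖u i‖ ≤ r) → HasSum (fun s => c s * mon (a s) u) (G u)

lemma summable_term {r : ℝ} {I : Type} {c : I → ℂ} {a : I → Fin N → ℕ}
    (h : Summable (fun s => ‖c s‖ * r ^ (∑ i, a s i))) {u : Fin N → ℂ} (hu : ∀ i, ‖u i‖ ≤ r) :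
    Summable fun s => ‖c s * mon (a s) u‖ :=
  h.of_nonneg_of_le (fun _ => norm_nonneg _) fun s => by
    rw [norm_mul]; exact mul_le_mul_of_nonneg_left (norm_mon_le _ hu) (norm_nonneg _)

lemma An.monomial (r : ℝ) (c : ℂ) (a : Fin N → ℕ) : An r fun u => c * mon a u :=
  ⟨Unit, fun _ => c, fun _ => a, (hasSum_fintype _).summable, fun u _ => by
    simp⟩

lemma An.add {r : ℝ} {G H : (Fin N → ℂ) → ℂ} (hG : An r G) (hH : An r H) :
    An r fun u => G u + H u := by
  obtain ⟨I, c, a, h1, h2⟩ := hG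
  obtain ⟨J, d, b, h3, h4⟩ := hH
  exact ⟨I ⊕ J, Sum.elim c d, Sum.elim a b, Summable.sum _ h1 h3,
    fun u hu => HasSum.sum (h2 u hu) (h4 u hu)⟩

lemma An.mul {r : ℝ} (hr : 0 ≤ r) {G H : (Fin N → ℂ) → ℂ} (hG : An r G) (hH : An r H) :
    An r fun u => G u * H u := by
  obtain ⟨I, c, a, h1, h2⟩ := hG
  obtain ⟨J, d, b, h3, h4⟩ := hH
  refine ⟨I × J, fun s => c s.1 * d s.2, fun s => a s.1 + b s.2, ?_, fun u hu => ?_⟩
  · refine (h1.mul_of_nonneg h3 (fun s => by positivity) (fun s => by positivity)).congr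
      fun s => ?_
    simp only [Pi.add_apply, Finset.sum_add_distrib, pow_add, norm_mul]
    ring
  · have h5 : Summable fun x : I × J => (c x.1 * mon (a x.1) u) * (d x.2 * mon (b x.2) u) :=
      summable_mul_of_summable_norm (f := fun s => c s * mon (a s) u)
        (g := fun s => d s * mon (b s) u) (summable_term h1 hu) (summable_term h3 hu)
    have h6 := HasSum.mul (f := fun s => c s * mon (a s) u) (g := fun s => d s * mon (b s) u)
      (h2 u hu) (h4 u hu) h5
    have e : (fun s : I × J => c s.1 * d s.2 * mon (a s.1 + b s.2) u) =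
        fun x : I × J => (c x.1 * mon (a x.1) u) * (d x.2 * mon (b x.2) u) := by
      funext s; rw [mon_add]; ring
    rw [e]; exact h6

lemma An.one_var {r : ℝ} (i : Fin N) (c : ℕ → ℂ) (g : ℂ → ℂ)
    (h1 : Summable fun j => ‖c j‖ * r ^ j)
    (h2 : ∀ z, ‖z‖ ≤ r → HasSum (fun j => c j * z ^ j) (g z)) :
    An r fun u : Fin N → ℂ => g (u i) :=
  ⟨ℕ, c, fun j => Pi.single i j, by simpa using h1, fun u hu => by
    simpa only [mon_single] using h2 (u i) (hu i)⟩

/-- clearing denominators in a polynomial of meromorphic functions -/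
lemma An.poly {r : ℝ} (hr : 0 ≤ r) (g : Fin N → (Fin N → ℂ) → ℂ) (hg : ∀ i, An r (g i))
    (p : MvPolynomial (Fin N) ℂ) :
    ∃ (D : Fin N → ℕ) (G : (Fin N → ℂ) → ℂ), An r G ∧ ∀ u x : Fin N → ℂ,
      (∀ i, x i * u i = g i u) → G u = MvPolynomial.eval x p * mon D u := by
  induction p using MvPolynomial.induction_on with
  | C c => exact ⟨0, _, An.monomial r c 0, fun u x _ => by simp⟩
  | add p q hp hq =>
    obtain ⟨D, G, hG, h1⟩ := hp
    obtain ⟨E, H, hH, h2⟩ := hq
    refine ⟨D + E, _, (hG.mul hr (An.monomial r 1 E)).add (hH.mul hr (An.monomial r 1 D)),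
      fun u x hx => ?_⟩
    rw [h1 u x hx, h2 u x hx, mon_add, map_add]
    ring
  | mul_X p i hp =>
    obtain ⟨D, G, hG, h1⟩ := hp
    refine ⟨D + Pi.single i 1, _, hG.mul hr (hg i), fun u x hx => ?_⟩
    rw [h1 u x hx, mon_add, mon_single, map_mul, MvPolynomial.eval_X, ← hx i]
    ring

lemma exists_top {α : Type*} (R : α → α → Prop) (htot : ∀ a b, R a b ∨ R b a)
    (htr : ∀ a b c, R a b → R b c → R a c) (s : Finset α) (hs : s.Nonempty) :
    ∃ a ∈ s, ∀ b ∈ s, R b a := by
  induction hs using Finset.Nonempty.cons_induction with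
  | singleton a => exact ⟨a, by simp, fun b hb => by
      rw [Finset.mem_singleton.1 hb]; exact (htot a a).elim id id⟩
  | cons a s ha _ ih =>
    obtain ⟨b, hb, h⟩ := ih
    rcases htot a b with h1 | h1
    · refine ⟨b, Finset.mem_cons.2 (Or.inr hb), fun c hc => ?_⟩
      rcases Finset.mem_cons.1 hc with rfl | hc
      · exact h1
      · exact h c hc
    · refine ⟨a, Finset.mem_cons.2 (Or.inl rfl), fun c hc => ?_⟩
      rcases Finset.mem_cons.1 hc with rfl | hc
      · exact (htot c c).elim id id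
      · exact htr _ _ _ (h c hc) h1

lemma dickson {I : Type*} (a : I → Fin N → ℕ) (B : Set I) :
    ∃ B₀ : Finset I, (∀ s ∈ B₀, s ∈ B) ∧ ∀ s ∈ B, ∃ b ∈ B₀, a b ≤ a s := by
  classical
  rcases B.eq_empty_or_nonempty with rfl | ⟨s0, -⟩
  · exact ⟨∅, by simp, by simp⟩
  have : Nonempty I := ⟨s0⟩
  have hp := Set.isPWO_of_wellQuasiOrderedLE (a '' B)
  have hf := (setOfPred_minimal_antichain (· ∈ a '' B)).finite_of_partiallyWellOrderedOn
    (hp.mono (setOfPred_minimal_subset _))
  have : ∀ m : Fin N → ℕ, Minimal (· ∈ a '' B) m → ∃ s ∈ B, a s = m := fun m hm => hm.1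
  choose! σ h1 h2 using this
  refine ⟨hf.toFinset.image σ, fun s hs => ?_, fun s hs => ?_⟩
  · obtain ⟨m, hm, rfl⟩ := Finset.mem_image.1 hs
    exact h1 m (hf.mem_toFinset.1 hm)
  · obtain ⟨m, hm, hm'⟩ := hp.exists_le_minimal ⟨s, hs, rfl⟩
    exact ⟨σ m, Finset.mem_image.2 ⟨m, hf.mem_toFinset.2 hm', rfl⟩, (h2 m hm').symm ▸ hm⟩

/-- the leading term principle -/
theorem An.vanish {X : Type*} {r : ℝ} (hr : 0 < r) {G : (Fin N → ℂ) → ℂ} (hG : An r G)
    (l : Filter X) [l.NeBot] (C : Set X) (hC : C ∈ l) (u : X → Fin N → ℂ)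
    (h0 : ∀ x ∈ C, ∀ i, u x i ≠ 0) (hur : ∀ x ∈ C, ∀ i, ‖u x i‖ ≤ r)
    (htri : ∀ a b : Fin N → ℕ, (∃ κ : ℂ, ∀ x ∈ C, mon a (u x) = κ * mon b (u x)) ∨
      Tendsto (fun x => mon a (u x) / mon b (u x)) l (𝓝 0) ∨
      Tendsto (fun x => mon b (u x) / mon a (u x)) l (𝓝 0))
    (hz : ∀ᶠ x in l, G (u x) = 0) : ∀ x ∈ C, G (u x) = 0 := by
  classical
  obtain ⟨I, c, a, hs, hsum⟩ := hG
  obtain ⟨x0, hx0⟩ := l.nonempty_of_mem hC
  have hm : ∀ (b : Fin N → ℕ), ∀ x ∈ C, mon b (u x) ≠ 0 := fun b x hx => mon_ne (h0 x hx)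
  set ρ : I → C → ℂ := fun s x => mon (a s) (u x) / mon (a s) (u x0) with hρ
  set c' : I → ℂ := fun s => c s * mon (a s) (u x0) with hc'
  have hc's : Summable c' := (summable_term hs (hur x0 hx0)).of_norm
  set σ : (C → ℂ) → ℂ := fun g => ∑' s : {s // ρ s = g}, c' s with hσ
  have hterm : ∀ s (x : C), c s * mon (a s) (u x) = c' s * ρ s x := by
    intro s x
    have := hm (a s) x0 hx0
    simp only [hρ, hc']
    field_simp
  have hfib : ∀ (g : C → ℂ) (x : C),
      HasSum (fun s : {s // ρ s = g} => c s * mon (a s) (u x)) (σ g * g x) := by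
    intro g x
    have := ((hc's.subtype {s | ρ s = g}).hasSum).mul_right (g x)
    have e : (fun s : {s // ρ s = g} => c s * mon (a s) (u x)) =
        fun s : {s // ρ s = g} => c' s * g x := by
      funext s; rw [hterm, s.2]
    rw [e]; exact this
  set B : Set I := {s | σ (ρ s) ≠ 0} with hB
  have hB0 : ∀ x : C, HasSum (fun s => if s ∈ B then c s * mon (a s) (u x) else 0) (G (u x)) := by
    intro x
    have h1 := hsum _ (hur x x.2)
    have h2 : Summable fun s => if s ∈ B then 0 else c s * mon (a s) (u x) := by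
      refine Summable.of_norm_bounded (summable_term hs (hur x x.2)) fun s => ?_
      split_ifs
      · rw [norm_zero]; exact norm_nonneg _
      · exact le_rfl
    have h3 := (Equiv.sigmaFiberEquiv ρ).hasSum_iff.2 h2.hasSum
    have h4 : HasSum (fun _ : C → ℂ => (0 : ℂ))
        (∑' s, if s ∈ B then 0 else c s * mon (a s) (u x)) := by
      refine HasSum.sigma h3 fun g => ?_
      by_cases hg : σ g = 0
      · have := hfib g x
        rw [hg, zero_mul] at this
        have e : (fun s : {s // ρ s = g} => ((fun s => if s ∈ B then 0 else c s * mon (a s) (u x)) ∘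
            Equiv.sigmaFiberEquiv ρ) ⟨g, s⟩) = fun s : {s // ρ s = g} => c s * mon (a s) (u x) := by
          funext s
          have : (s : I) ∉ B := by simp [hB, s.2, hg]
          simp [Equiv.sigmaFiberEquiv, this]
        rw [e]; exact this
      · have e : (fun s : {s // ρ s = g} => ((fun s => if s ∈ B then 0 else c s * mon (a s) (u x)) ∘
            Equiv.sigmaFiberEquiv ρ) ⟨g, s⟩) = fun _ => 0 := by
          funext s
          have : (s : I) ∈ B := by simp [hB, s.2, hg]
          simp [Equiv.sigmaFiberEquiv, this]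
        rw [e]; exact hasSum_zero
    have h5 := h2.hasSum
    rw [← hasSum_zero.unique h4] at h5
    have h6 := h1.sub h5
    rw [sub_zero] at h6
    have e : (fun s => if s ∈ B then c s * mon (a s) (u x) else 0) = fun s =>
        c s * mon (a s) (u x) - if s ∈ B then 0 else c s * mon (a s) (u x) := by
      funext s; split_ifs <;> simp
    rw [e]; exact h6
  rcases B.eq_empty_or_nonempty with hBe | ⟨s1, hs1⟩
  · intro x hx
    have := hB0 ⟨x, hx⟩
    simp only [hBe, Set.mem_empty_iff_false, if_false] at this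
    exact this.unique hasSum_zero
  exfalso
  obtain ⟨B₀, hB1, hB2⟩ := dickson a B
  have hne : B₀.Nonempty := by
    obtain ⟨b, hb, -⟩ := hB2 s1 hs1
    exact ⟨b, hb⟩
  have hsmall : ∀ a b : Fin N → ℕ, Tendsto (fun x => mon a (u x) / mon b (u x)) l (𝓝 0) →
      ∀ᶠ x in l, ‖mon a (u x)‖ ≤ 1 * ‖mon b (u x)‖ := by
    intro a b h
    filter_upwards [hC, (tendsto_zero_iff_norm_tendsto_zero.1 h).eventually
      (ge_mem_nhds zero_lt_one)] with x hx h1
    rwa [norm_div, div_le_iff₀ (norm_pos_iff.2 (hm b x hx))] at h1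
  obtain ⟨t, ht, htop⟩ := exists_top
    (fun s s' : I => ∃ K : ℝ, 0 ≤ K ∧ ∀ᶠ x in l, ‖mon (a s) (u x)‖ ≤ K * ‖mon (a s') (u x)‖)
    (fun s s' => by
      rcases htri (a s) (a s') with ⟨κ, h⟩ | h | h
      · refine Or.inl ⟨‖κ‖, norm_nonneg _, ?_⟩
        filter_upwards [hC] with x hx
        rw [h x hx, norm_mul]
      · exact Or.inl ⟨1, zero_le_one, hsmall _ _ h⟩
      · exact Or.inr ⟨1, zero_le_one, hsmall _ _ h⟩)
    (fun s1 s2 s3 ⟨K, hK, h1⟩ ⟨K', hK', h2⟩ => ⟨K * K', mul_nonneg hK hK', by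
      filter_upwards [h1, h2] with x h1 h2
      rw [mul_assoc]
      exact h1.trans (mul_le_mul_of_nonneg_left h2 hK)⟩) B₀ hne
  choose! K hK0 hK using htop
  have hKall : ∀ᶠ x in l, ∀ b ∈ B₀, ‖mon (a b) (u x)‖ ≤ K b * ‖mon (a t) (u x)‖ :=
    (eventually_all_finset B₀).2 hK
  set K' : ℝ := ∑ b ∈ B₀, K b / r ^ (∑ i, a b i) with hK'
  have hbd : ∀ᶠ x in l, ∀ s ∈ B,
      ‖mon (a s) (u x) / mon (a t) (u x)‖ ≤ r ^ (∑ i, a s i) * K' := by
    filter_upwards [hC, hKall] with x hx h s hsB
    obtain ⟨b, hb, hle⟩ := hB2 s hsB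
    obtain ⟨e, he⟩ := exists_add_of_le hle
    have h1 : K b / r ^ (∑ i, a b i) ≤ K' :=
      Finset.single_le_sum (f := fun b => K b / r ^ (∑ i, a b i))
        (fun b hb => div_nonneg (hK0 b hb) (by positivity)) hb
    have h2 := norm_mon_le e (hur x hx)
    have h3 : 0 < ‖mon (a t) (u x)‖ := norm_pos_iff.2 (hm _ x hx)
    rw [norm_div, div_le_iff₀ h3, he, mon_add, norm_mul]
    simp only [Pi.add_apply, Finset.sum_add_distrib, pow_add]
    calc ‖mon (a b) (u x)‖ * ‖mon e (u x)‖
        ≤ (K b * ‖mon (a t) (u x)‖) * r ^ (∑ i, e i) :=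
          mul_le_mul (h b hb) h2 (norm_nonneg _) (mul_nonneg (hK0 b hb) h3.le)
      _ = r ^ (∑ i, a b i) * r ^ (∑ i, e i) * (K b / r ^ (∑ i, a b i)) * ‖mon (a t) (u x)‖ := by
          field_simp
      _ ≤ _ := by gcongr
  have hK'0 : 0 ≤ K' := Finset.sum_nonneg fun b hb => div_nonneg (hK0 b hb) (by positivity)
  have hlim := tendsto_tsum_of_dominated_convergence (𝓕 := l)
    (f := fun x s => (if s ∈ B then c s * mon (a s) (u x) else 0) / mon (a t) (u x))
    (g := fun s => (if ρ s = ρ t then c' s else 0) / mon (a t) (u x0))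
    (bound := fun s => ‖c s‖ * r ^ (∑ i, a s i) * K') (hs.mul_right K') (fun s => ?_) ?_
  · have h1 : ∀ᶠ x in l, (∑' s, (if s ∈ B then c s * mon (a s) (u x) else 0) / mon (a t) (u x))
        = 0 := by
      filter_upwards [hC, hz] with x hx h
      have := ((hB0 ⟨x, hx⟩).div_const (mon (a t) (u x))).tsum_eq
      rw [this, h, zero_div]
    have h2 := tendsto_nhds_unique (hlim.congr' h1) tendsto_const_nhds
    rw [tsum_div_const, div_eq_zero_iff] at h2
    rcases h2 with h2 | h2
    · apply hB1 t ht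
      rw [← h2]
      have := tsum_subtype {s | ρ s = ρ t} c'
      simp only [Set.indicator_apply, Set.mem_ofPred_eq] at this
      exact this
    · exact hm _ x0 hx0 h2
  · by_cases hst : ρ s = ρ t
    · have hsB : s ∈ B := by
        have := hB1 t ht
        simpa [hB, hst] using this
      refine tendsto_const_nhds.congr' ?_
      filter_upwards [hC] with x hx
      have h1 := congrFun hst ⟨x, hx⟩
      have h2 := hm (a s) x0 hx0
      have h3 := hm (a t) x0 hx0
      have h4 := hm (a t) x hx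
      simp only [hρ] at h1
      rw [div_eq_div_iff h2 h3] at h1
      rw [if_pos hst, if_pos hsB, div_eq_div_iff h3 h4]
      simp only [hc']
      linear_combination (-c s) * h1
    · rw [if_neg hst, zero_div]
      by_cases hsB : s ∈ B
      · simp only [if_pos hsB]
        rcases htri (a s) (a t) with ⟨κ, h⟩ | h | h
        · exfalso
          apply hst
          funext x
          have h2 := hm (a s) x0 hx0
          have h3 := hm (a t) x0 hx0
          simp only [hρ]
          rw [div_eq_div_iff h2 h3, h x x.2, h x0 hx0]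
          ring
        · simpa [mul_div_assoc] using h.const_mul (c s)
        · exfalso
          have h1 := (tendsto_zero_iff_norm_tendsto_zero.1 h).mul_const (r ^ (∑ i, a s i) * K')
          rw [zero_mul] at h1
          obtain ⟨x, hx, h2, h3⟩ := (Eventually.and hC (hbd.and
            (h1.eventually (gt_mem_nhds zero_lt_one)))).exists
          have h4 := mul_le_mul_of_nonneg_left (h2 s hsB)
            (norm_nonneg (mon (a t) (u x) / mon (a s) (u x)))
          rw [← norm_mul, div_mul_div_comm, mul_comm (mon (a s) (u x)),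
            div_self (mul_ne_zero (hm _ x hx) (hm _ x hx)), norm_one] at h4
          linarith
      · simp [hsB]
  · filter_upwards [hbd] with x h s
    by_cases hsB : s ∈ B
    · rw [if_pos hsB, mul_div_assoc, norm_mul, mul_assoc]
      exact mul_le_mul_of_nonneg_left (h s hsB) (norm_nonneg _)
    · rw [if_neg hsB, zero_div, norm_zero]
      positivity

end Pool.Agent.MP_be2dd8_ag.H15
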